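import Mathlib

/-!
Parameter choice for the single linear form (pure arithmetic of natural numbers).
-/

set_option autoImplicit false

namespace Pool.Agent.Y812.WQ

theorem sq_le_pow (m : ℕ) : (m + 1) ^ 2 ≤ 4 * 2 ^ m := by
  rcases Nat.lt_or_ge m 2 with h | h
  · interval_cases m <;> norm_num
  · induction m, h using Nat.le_induction with
    | base => norm_num
    | succ m hm ih =>
      rw [pow_succ 2 m]
      nlinarith

theorem exists_e (C : ℕ) : ∃ e : ℕ, 1 ≤ e ∧ C + 6 * e + 51 ≤ 2 ^ e := by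
  refine ⟨C + 20, by omega, ?_⟩
  induction C with
  | zero => norm_num
  | succ C ih =>
    have : 2 ^ (C + 1 + 20) = 2 * 2 ^ (C + 20) := by ring
    rw [this]
    omega

theorem lin_le_pow (m : ℕ) (h : 11 ≤ m) : 3 * (m + 1) + 1 ≤ 2 ^ m := by
  induction m, h using Nat.le_induction with
  | base => norm_num
  | succ m hm ih => rw [pow_succ]; omega

theorem add_le_pow {x y p q : ℕ} (hx : x ≤ 2 ^ p) (hy : y ≤ 2 ^ q) : x + y ≤ 2 ^ (p + q + 1) := by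
  have h1 : 2 ^ p ≤ 2 ^ (p + q) := Nat.pow_le_pow_right (by norm_num) (by omega)
  have h2 : 2 ^ q ≤ 2 ^ (p + q) := Nat.pow_le_pow_right (by norm_num) (by omega)
  rw [pow_succ]
  omega

theorem mul_le_pow {x y p q : ℕ} (hx : x ≤ 2 ^ p) (hy : y ≤ 2 ^ q) : x * y ≤ 2 ^ (p + q) := by
  rw [pow_add]; exact Nat.mul_le_mul hx hy

theorem pow_mono {p q : ℕ} (h : p ≤ q) : 2 ^ p ≤ 2 ^ q := Nat.pow_le_pow_right (by norm_num) h

/-- The parameters. -/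
theorem par (D c0 : ℕ) : ∃ κ : ℕ, ∀ n h S : ℕ, 1 ≤ n → 1 ≤ h → 1 ≤ S →
    ∃ a w J Z0 N Xs τ T0 Δ ν : ℕ, 1 ≤ w ∧ Xs = (h * 2 ^ a) * w ∧ τ = 128 * ((D + 2) * Xs) ∧
      T0 = (J + 1) * τ ∧ ν = 2 * D * h + (n * a) * (S + a) ∧ Δ = (n * a) * (S + a) + w ∧
      ∀ C ≤ T0 ^ (n - 1),
        2 ^ (2 * D * h) * (2 * (C * Z0)) ≤ (n * a).choose w ∧
        2 * C ≤ 2 ^ J ∧ 64 * ((D + 2) * (Δ * (J + 1))) ≤ Z0 ∧
        2 * (C * Z0) ≤ 2 ^ N ∧ 2 * N + c0 + 1 ≤ Z0 ∧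
        2 + ν * τ + (τ + τ ^ 2) * (2 ^ J * Z0) ≤ 2 ^ (κ * (n * h) ^ 3) * (S + 1) ^ (κ * n) := by
  obtain ⟨e, he1, he⟩ := exists_e (4 * D + c0)
  obtain ⟨e', he'⟩ : ∃ e', 2 ^ e = 2 * 2 ^ e' := by
    refine ⟨e - 1, ?_⟩
    rw [← pow_succ']; congr 1; omega
  refine ⟨9 * 2 ^ e, ?_⟩
  intro n h S hn hh hS
  obtain ⟨l, hl⟩ : ∃ l, l = Nat.log 2 (S + 1) := ⟨_, rfl⟩
  have hl1 : 2 ^ l ≤ S + 1 := by rw [hl]; exact Nat.pow_log_le_self 2 (by omega)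
  have hl2 : S + 1 < 2 ^ (l + 1) := by rw [hl]; exact Nat.lt_pow_succ_log_self (by norm_num) _
  obtain ⟨X, hX⟩ : ∃ X, X = (n * h) ^ 2 + l := ⟨_, rfl⟩
  have hnh : 1 ≤ n * h := Nat.mul_pos hn hh
  have hX1 : 1 ≤ X := by rw [hX]; have := Nat.one_le_pow 2 (n * h) hnh; omega
  have hnhX : (n * h) ^ 2 ≤ X := by omega
  have hn2 : n ^ 2 ≤ X := by
    refine le_trans (Nat.pow_le_pow_left ?_ 2) hnhX
    exact Nat.le_mul_of_pos_right n hh
  have hnX : n ≤ X := le_trans (by nlinarith) hn2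
  have hhX : h ≤ X := by
    have : h ≤ n * h := Nat.le_mul_of_pos_left h hn
    nlinarith
  have hlX : l ≤ X := by omega
  obtain ⟨m, hm⟩ : ∃ m, m = Nat.log 2 X := ⟨_, rfl⟩
  obtain ⟨R, hR⟩ : ∃ R, R = m + 1 := ⟨_, rfl⟩
  have hR1 : 1 ≤ R := by omega
  have hXR : X ≤ 2 ^ R := by
    rw [hR, hm]; exact (Nat.lt_pow_succ_log_self (by norm_num) _).le
  have hmX : 2 ^ m ≤ X := by rw [hm]; exact Nat.pow_log_le_self 2 (by omega)
  have hR2 : R ^ 2 ≤ 4 * X := by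
    rw [hR]; exact (sq_le_pow m).trans (Nat.mul_le_mul_left _ hmX)
  have hnR : n * R ≤ 2 * X := by
    have h1 : (n * R) ^ 2 ≤ (2 * X) ^ 2 := by
      calc (n * R) ^ 2 = n ^ 2 * R ^ 2 := by ring
        _ ≤ X * (4 * X) := Nat.mul_le_mul hn2 hR2
        _ = (2 * X) ^ 2 := by ring
    exact (Nat.pow_le_pow_iff_left (by norm_num)).1 h1
  have hRX : R ≤ 2 * X := le_trans (Nat.le_mul_of_pos_left R hn) hnR
  -- the choice
  obtain ⟨a', ha'⟩ : ∃ a', a' = 2 ^ e' * X := ⟨_, rfl⟩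
  obtain ⟨a, ha⟩ : ∃ a, a = 2 ^ e * X := ⟨_, rfl⟩
  have haa : a = 2 * a' := by rw [ha, ha', he']; ring
  have ha'1 : 1 ≤ a' := by rw [ha']; exact Nat.mul_pos (by positivity) hX1
  have haR : a ≤ 2 ^ (e + R) := by rw [ha, pow_add]; exact Nat.mul_le_mul_left _ hXR
  obtain ⟨w, hw⟩ : ∃ w, w = n * a' := ⟨_, rfl⟩
  have hk : n * a = 2 * w := by rw [haa, hw]; ring
  have hw1 : 1 ≤ w := by rw [hw]; exact Nat.mul_pos hn ha'1
  have hnR' : n ≤ 2 ^ R := hnX.trans hXR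
  have hhR' : h ≤ 2 ^ R := hhX.trans hXR
  have hkR : n * a ≤ 2 ^ (R + (e + R)) := mul_le_pow hnR' haR
  have hwR : w ≤ 2 ^ (R + (e + R)) := by omega
  obtain ⟨J, hJ⟩ : ∃ J, J = 2 * (n * a) := ⟨_, rfl⟩
  have hJR : J + 1 ≤ 2 ^ (2 + e + 2 * R) := by
    have e1 : 2 ^ (2 + e + 2 * R) = 4 * 2 ^ (R + (e + R)) := by
      rw [show 2 + e + 2 * R = 2 + (R + (e + R)) by ring, pow_add]; norm_num
    have := Nat.one_le_two_pow (n := R + (e + R))
    omega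
  obtain ⟨b, hb⟩ : ∃ b, b = 9 + (D + 2) + 2 * e + 5 * R := ⟨_, rfl⟩
  obtain ⟨z, hz⟩ : ∃ z, z = 12 + (D + 2) + 3 * e + 5 * R + l + c0 := ⟨_, rfl⟩
  have hD2 : D + 2 ≤ 2 ^ (D + 2) := Nat.lt_two_pow_self.le
  -- the main linear inequality
  have hmain : e + 2 * R + 2 * D * h + 1 + b * n + z ≤ a := by
    have h1 : 2 * D * h ≤ 2 * D * X := Nat.mul_le_mul_left _ hhX
    have h2 : b * n ≤ (9 + (D + 2) + 2 * e) * X + 10 * X := by
      calc b * n = (9 + (D + 2) + 2 * e) * n + 5 * (n * R) := by rw [hb]; ring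
        _ ≤ _ := by
          have := Nat.mul_le_mul_left (9 + (D + 2) + 2 * e) hnX
          omega
    have h3 : z ≤ (12 + (D + 2) + 3 * e + c0) * X + 10 * X + X := by
      have := Nat.le_mul_of_pos_right (12 + (D + 2) + 3 * e + c0) hX1
      rw [hz]
      omega
    have h4 : e ≤ e * X := Nat.le_mul_of_pos_right _ hX1
    calc e + 2 * R + 2 * D * h + 1 + b * n + z
        ≤ e * X + 4 * X + 2 * D * X + X + ((9 + (D + 2) + 2 * e) * X + 10 * X) +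
          ((12 + (D + 2) + 3 * e + c0) * X + 10 * X + X) := by omega
      _ = (4 * D + c0 + 6 * e + 51) * X := by ring
      _ ≤ 2 ^ e * X := Nat.mul_le_mul_right _ he
      _ = a := ha.symm
  have hbn : b ≤ b * n := Nat.le_mul_of_pos_right _ hn
  have hba : b ≤ a := by omega
  have hza : z ≤ a := by omega
  obtain ⟨Xs, hXs⟩ : ∃ Xs, Xs = (h * 2 ^ a) * w := ⟨_, rfl⟩
  obtain ⟨τ, hτ⟩ : ∃ τ, τ = 128 * ((D + 2) * Xs) := ⟨_, rfl⟩
  obtain ⟨T0, hT0⟩ : ∃ T0, T0 = (J + 1) * τ := ⟨_, rfl⟩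
  obtain ⟨Δ, hΔ⟩ : ∃ Δ, Δ = (n * a) * (S + a) + w := ⟨_, rfl⟩
  obtain ⟨ν, hν⟩ : ∃ ν, ν = 2 * D * h + (n * a) * (S + a) := ⟨_, rfl⟩
  have hT0b : T0 ≤ 2 ^ (a + b) := by
    have h1 : Xs ≤ 2 ^ ((R + a) + (R + (e + R))) := by
      rw [hXs]; exact mul_le_pow (mul_le_pow hhR' le_rfl) hwR
    have h2 : τ ≤ 2 ^ (7 + ((D + 2) + ((R + a) + (R + (e + R))))) := by
      rw [hτ]; exact mul_le_pow (x := 128) (p := 7) (by norm_num) (mul_le_pow hD2 h1)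
    have h3 : T0 ≤ 2 ^ ((2 + e + 2 * R) + (7 + ((D + 2) + ((R + a) + (R + (e + R)))))) := by
      rw [hT0]; exact mul_le_pow hJR h2
    refine h3.trans (pow_mono ?_)
    rw [hb]; omega
  have hτb : τ ≤ 2 ^ (a + b) := by
    refine le_trans ?_ hT0b
    rw [hT0]; exact Nat.le_mul_of_pos_left _ (by omega)
  have hSa : S + a + 1 ≤ 2 ^ (l + 1 + (e + R) + 1) := by
    have := add_le_pow hl2.le haR
    omega
  have hkS : (n * a) * (S + a + 1) ≤ 2 ^ ((R + (e + R)) + (l + 1 + (e + R) + 1)) :=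
    mul_le_pow hkR hSa
  have hΔb : Δ ≤ 2 ^ ((R + (e + R)) + (l + 1 + (e + R) + 1)) := by
    refine le_trans ?_ hkS
    rw [hΔ, mul_add (n * a) (S + a) 1]
    omega
  have hνb : ν ≤ 2 ^ z := by
    have h1 : 2 * D * h ≤ 2 ^ (1 + (D + 2) + R) := by
      refine mul_le_pow (mul_le_pow (x := 2) (p := 1) (by norm_num) ?_) hhR'
      omega
    have h2 : (n * a) * (S + a) ≤ 2 ^ ((R + (e + R)) + (l + 1 + (e + R) + 1)) := by
      refine le_trans ?_ hkS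
      exact Nat.mul_le_mul_left _ (by omega)
    have h3 : 2 * 2 ^ (z - 1) = 2 ^ z := by
      rw [← pow_succ']; congr 1; omega
    have h4 := h1.trans (pow_mono (show 1 + (D + 2) + R ≤ z - 1 by omega))
    have h5 := h2.trans (pow_mono
      (show (R + (e + R)) + (l + 1 + (e + R) + 1) ≤ z - 1 by omega))
    omega
  refine ⟨a, w, J, 2 ^ z, J + z, Xs, τ, T0, Δ, ν, hw1, hXs, hτ, hT0, hν, hΔ, ?_⟩
  intro C hC
  have hCb : C ≤ 2 ^ ((a + b) * (n - 1)) := by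
    refine hC.trans ?_
    rw [pow_mul]
    exact Nat.pow_le_pow_left hT0b _
  have hexp : (a + b) * (n - 1) + a ≤ a * n + b * n := by
    obtain ⟨n', rfl⟩ : ∃ n', n = n' + 1 := ⟨n - 1, by omega⟩
    simp only [Nat.add_sub_cancel]
    calc (a + b) * n' + a ≤ (a + b) * n' + a + b := Nat.le_add_right _ _
      _ = a * (n' + 1) + b * (n' + 1) := by ring
  have hexp2 : (a + b) * (n - 1) + (e + 2 * R + 2 * D * h + 1 + z) ≤ n * a := by
    have := Nat.mul_comm a n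
    omega
  have hB : 2 * C ≤ 2 ^ J := by
    have hb1 : 2 * C ≤ 2 ^ (1 + (a + b) * (n - 1)) :=
      mul_le_pow (x := 2) (p := 1) (by norm_num) hCb
    exact hb1.trans (pow_mono (by omega))
  have hBZ : 2 * (C * 2 ^ z) ≤ 2 ^ (J + z) := by
    rw [← mul_assoc]
    exact mul_le_pow hB le_rfl
  refine ⟨?_, hB, ?_, hBZ, ?_, ?_⟩
  · -- (A)
    have hc := Nat.four_pow_le_two_mul_self_mul_centralBinom w hw1
    rw [Nat.centralBinom_eq_two_mul_choose] at hc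
    rw [hk]
    have h1 : (2 * w) * (2 ^ (2 * D * h) * (2 * (C * 2 ^ z))) ≤ (2 * w) * (2 * w).choose w := by
      refine le_trans ?_ hc
      have h2 : (4 : ℕ) ^ w = 2 ^ (n * a) := by
        rw [hk, pow_mul]; norm_num
      rw [h2]
      calc (2 * w) * (2 ^ (2 * D * h) * (2 * (C * 2 ^ z)))
          ≤ 2 ^ ((R + (e + R)) + (2 * D * h + (1 + ((a + b) * (n - 1) + z)))) := by
            refine mul_le_pow (hk ▸ hkR) (mul_le_pow le_rfl (mul_le_pow (x := 2) (p := 1)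
              (by norm_num) (mul_le_pow hCb le_rfl)))
        _ ≤ 2 ^ (n * a) := pow_mono (by omega)
    exact Nat.le_of_mul_le_mul_left h1 (by omega)
  · -- (C)
    calc 64 * ((D + 2) * (Δ * (J + 1)))
        ≤ 2 ^ (6 + ((D + 2) + (((R + (e + R)) + (l + 1 + (e + R) + 1)) + (2 + e + 2 * R)))) :=
          mul_le_pow (x := 64) (p := 6) (by norm_num) (mul_le_pow hD2 (mul_le_pow hΔb hJR))
      _ ≤ 2 ^ z := pow_mono (by omega)
  · -- (E)
    have h3 : 2 * 2 ^ (z - 1) = 2 ^ z := by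
      rw [← pow_succ']; congr 1; omega
    have h4 : 2 * 2 ^ (2 + e + 2 * R) ≤ 2 ^ (z - 1) := by
      rw [← pow_succ']; exact pow_mono (by omega)
    have h5 := lin_le_pow (z - 1) (by omega)
    omega
  · -- (F)
    obtain ⟨Y, hY⟩ : ∃ Y, Y = 2 * (a + b) + J + z := ⟨_, rfl⟩
    have h0 : 1 ≤ 2 ^ Y := Nat.one_le_two_pow
    have h1 : ν * τ ≤ 2 ^ Y :=
      (mul_le_pow hνb hτb).trans (pow_mono (by omega))
    have h2 : τ * (2 ^ J * 2 ^ z) ≤ 2 ^ Y :=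
      (mul_le_pow hτb (mul_le_pow le_rfl le_rfl)).trans (pow_mono (by omega))
    have h3 : τ ^ 2 * (2 ^ J * 2 ^ z) ≤ 2 ^ Y := by
      rw [pow_two]
      exact (mul_le_pow (mul_le_pow hτb hτb) (mul_le_pow le_rfl le_rfl)).trans
        (pow_mono (by omega))
    have h4 : 2 + ν * τ + (τ + τ ^ 2) * (2 ^ J * 2 ^ z) ≤ 2 ^ (Y + 3) := by
      have e1 : 2 ^ (Y + 3) = 8 * 2 ^ Y := by rw [pow_add]; ring
      rw [add_mul τ (τ ^ 2)]
      omega
    refine h4.trans ?_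
    have hY9 : Y + 3 ≤ 9 * (n * a) := by
      have hna : a ≤ n * a := Nat.le_mul_of_pos_left _ hn
      omega
    have h5 : 9 * (n * a) ≤ 9 * 2 ^ e * (n * h) ^ 3 + l * (9 * 2 ^ e * n) := by
      rw [ha, hX]
      have h6 : n * (n * h) ^ 2 ≤ (n * h) ^ 3 := by
        rw [pow_succ (n * h) 2, mul_comm]
        exact Nat.mul_le_mul_left _ (Nat.le_mul_of_pos_right _ hh)
      have h7 := Nat.mul_le_mul_left (9 * 2 ^ e) h6
      calc 9 * (n * (2 ^ e * ((n * h) ^ 2 + l)))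
          = 9 * 2 ^ e * (n * (n * h) ^ 2) + l * (9 * 2 ^ e * n) := by ring
        _ ≤ _ := by omega
    calc 2 ^ (Y + 3) ≤ 2 ^ (9 * 2 ^ e * (n * h) ^ 3 + l * (9 * 2 ^ e * n)) :=
          pow_mono (hY9.trans h5)
      _ = 2 ^ (9 * 2 ^ e * (n * h) ^ 3) * (2 ^ l) ^ (9 * 2 ^ e * n) := by
          rw [pow_add, pow_mul 2 l]
      _ ≤ _ := Nat.mul_le_mul_left _ (Nat.pow_le_pow_left hl1 _)

end Pool.Agent.Y812.WQ
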